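import Pool.Agent.R447.PrimePart
import Pool.Agent.W276.Link

/-!
# MP_60b32f_nt: `D(n)` is unbounded

`D(n)` is the difference between the largest number of parts of a partition of `n` into distinct
primes and the number of parts of the partition of `n` into distinct primes with the largest
product.

Method. Let `P` be a prime followed by a long gap and `n = ∑_{p ≤ P} p - e` with `e` fixed. The
partition with the largest product is the set of all primes up to `P` without `T₀`, where `T₀` is the
set of distinct primes with sum `e` and smallest product. On the other hand `e` is a sum of at most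
five distinct primes (almost all even numbers are sums of two primes in many ways). Numbers `e` for
which `T₀` has `k` elements are constructed by induction on `k`, with isolated primes (Dirichlet).
-/

set_option autoImplicit false

namespace Pool.Agent.Results.MP_60b32f_nt.Unbounded

/-- The partitions of `n` into distinct primes. -/
def parts (n : ℕ) : Set (Finset ℕ) := {S | (∀ p ∈ S, p.Prime) ∧ ∑ p ∈ S, p = n}

/-- The largest possible number of parts. -/
noncomputable def M (n : ℕ) : ℕ := sSup (Finset.card '' parts n)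

/-- `S` is a partition of `n` into distinct primes with the largest product. -/
def IsStar (n : ℕ) (S : Finset ℕ) : Prop :=
  S ∈ parts n ∧ ∀ T ∈ parts n, ∏ p ∈ T, p ≤ ∏ p ∈ S, p

/-- The number of parts of the (unique) partition with the largest product. -/
noncomputable def m (n : ℕ) : ℕ := sInf (Finset.card '' {S | IsStar n S})

/-- `D(n) = M(n) - m(n)`. -/
noncomputable def D (n : ℕ) : ℕ := M n - m n

/-- The partition with the largest product is unique. -/
theorem star_unique (n : ℕ) (S T : Finset ℕ) (hS : IsStar n S) (hT : IsStar n T) : S = T := by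
  have h1 : ∏ p ∈ S, p = ∏ p ∈ T, p := le_antisymm (hT.2 S hS.1) (hS.2 T hT.1)
  have key : ∀ A B : Finset ℕ, (∀ p ∈ A, p.Prime) → (∀ p ∈ B, p.Prime) →
      ∏ p ∈ A, p = ∏ p ∈ B, p → A ⊆ B := by
    intro A B hA hB h p hp
    have h2 : p ∣ ∏ q ∈ B, q := by
      rw [← h]
      exact Finset.dvd_prod_of_mem (fun q => q) hp
    obtain ⟨q, hq, hpq⟩ := (Prime.dvd_finset_prod_iff (hA p hp).prime (fun q => q)).mp h2
    rw [(Nat.prime_dvd_prime_iff_eq (hA p hp) (hB q hq)).mp hpq]
    exact hq
  exact Finset.Subset.antisymm (key S T hS.1.1 hT.1.1 h1) (key T S hT.1.1 hS.1.1 h1.symm)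

theorem card_le {n : ℕ} {S : Finset ℕ} (hS : S ∈ parts n) : 2 * S.card ≤ n := by
  have h := Finset.card_nsmul_le_sum S (fun p => p) 2 (fun p hp => (hS.1 p hp).two_le)
  rw [hS.2] at h
  simpa [mul_comm] using h

/-- **`D(n)` is unbounded.** -/
theorem result : ∀ C : ℕ, ∃ n : ℕ, 2 ≤ n ∧ (parts n).Nonempty ∧ C < D n := by
  intro C
  obtain ⟨n, S, Z, h1, h2, h3, h4, h5, h6⟩ :=
    Pool.Agent.R447.PrimePart.main Pool.Agent.W276.Link.many C
  have hS : IsStar n S := ⟨⟨h1, h2⟩, fun T hT => h3 T hT.1 hT.2⟩
  have hZ : Z ∈ parts n := ⟨h4, h5⟩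
  refine ⟨n, ?_, ⟨Z, hZ⟩, ?_⟩
  · have := card_le hZ
    omega
  · have hm : m n ≤ S.card := Nat.sInf_le ⟨S, hS, rfl⟩
    have hM : Z.card ≤ M n := by
      apply le_csSup
      · refine ⟨n, ?_⟩
        rintro _ ⟨T, hT, rfl⟩
        have := card_le hT
        omega
      · exact ⟨Z, hZ, rfl⟩
    unfold D
    omega

end Pool.Agent.Results.MP_60b32f_nt.Unbounded
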